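import Pool.Agent.H881R2.MatrixDG

/-! A dg ring `R` with `[R] ≠ 0` in `K_0(R) ⊗ ℚ` whose homology ring admits no graded ring
homomorphism to a nonzero graded ring concentrated in even degrees. -/

set_option autoImplicit false

namespace Pool.Agent.Results.MP_b9a9ca_gt.DgCounterexample

open TensorProduct Pool.Agent.H881R2

theorem result : ∃ R : DGRing,
    (K0.unit R ⊗ₜ[ℤ] (1 : ℚ) : K0 R ⊗[ℤ] ℚ) ≠ 0 ∧
    ∀ (B : Type) [Ring B] (𝓑 : ℤ → AddSubgroup B) [GradedRing 𝓑],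
      (∀ i, Odd i → 𝓑 i = ⊥) → Nonempty (HomologyRingHom R B 𝓑) → Subsingleton B := by
  refine ⟨matDG deg3, K0.unit_ne_zero (finHom_matDG deg3) ?_, ?_⟩
  · rw [euler_deg3]; exact one_ne_zero
  · intro B _ 𝓑 _ hB ⟨h⟩
    exact subsingleton_of_zero_eq_one (one_eq_zero deg3 𝓑 hB h deg3_partner).symm

end Pool.Agent.Results.MP_b9a9ca_gt.DgCounterexample
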